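import Mathlib
import Pool.Agent.H770R2.Kad.Props

/-! Task XEXT of helper770: extension of a derivation to the generated von Neumann algebra. -/

set_option autoImplicit false

open scoped ComplexOrder InnerProductSpace
open Filter

noncomputable section

namespace H770R2.Kad

open H759R2.Kad

namespace AXEXT

variable {H : Type} [NormedAddCommGroup H] [InnerProductSpace ℂ H] [CompleteSpace H]

omit [CompleteSpace H] in
/-- joint continuity on bounded sets, strong form -/
theorem tendsto_app {I : Type} {F : Filter I} {T : I → (H →L[ℂ] H)} {x : H →L[ℂ] H} {r : ℝ}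
    (hr : ∀ i, ‖T i‖ ≤ r) (hT : ∀ ζ, Tendsto (fun i => T i ζ) F (nhds (x ζ))) {v : I → H} {v0 : H}
    (hv : Tendsto v F (nhds v0)) : Tendsto (fun i => T i (v i)) F (nhds (x v0)) := by
  have h1 : Tendsto (fun i => T i (v i - v0)) F (nhds 0) := by
    rw [tendsto_zero_iff_norm_tendsto_zero]
    have h2 : Tendsto (fun i => r * ‖v i - v0‖) F (nhds 0) := by
      have h3 : Tendsto (fun i => ‖v i - v0‖) F (nhds 0) := by
        rw [← tendsto_zero_iff_norm_tendsto_zero]
        have := hv.sub_const v0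
        rwa [sub_self] at this
      simpa using h3.const_mul r
    refine squeeze_zero (fun i => norm_nonneg _) (fun i => ?_) h2
    exact ((T i).le_opNorm _).trans (mul_le_mul_of_nonneg_right (hr i) (norm_nonneg _))
  have h4 := h1.add (hT v0)
  rw [zero_add] at h4
  refine h4.congr (fun i => ?_)
  rw [map_sub, sub_add_cancel]

omit [CompleteSpace H] in
/-- joint continuity on bounded sets, weak form -/
theorem tendsto_inner {I : Type} {F : Filter I} {T : I → (H →L[ℂ] H)} {E : H →L[ℂ] H} {r : ℝ}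
    (hr : ∀ i, ‖T i‖ ≤ r)
    (hT : ∀ ξ η : H, Tendsto (fun i => ⟪η, T i ξ⟫_ℂ) F (nhds ⟪η, E ξ⟫_ℂ)) {v w : I → H} {v0 w0 : H}
    (hv : Tendsto v F (nhds v0)) (hw : Tendsto w F (nhds w0)) :
    Tendsto (fun i => ⟪w i, T i (v i)⟫_ℂ) F (nhds ⟪w0, E v0⟫_ℂ) := by
  have hv' : Tendsto (fun i => ‖v i - v0‖) F (nhds 0) := by
    rw [← tendsto_zero_iff_norm_tendsto_zero]
    have := hv.sub_const v0
    rwa [sub_self] at this
  have hw' : Tendsto (fun i => ‖w i - w0‖) F (nhds 0) := by
    rw [← tendsto_zero_iff_norm_tendsto_zero]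
    have := hw.sub_const w0
    rwa [sub_self] at this
  have h1 : Tendsto (fun i => ⟪w i - w0, T i (v i)⟫_ℂ) F (nhds 0) := by
    rw [tendsto_zero_iff_norm_tendsto_zero]
    have h2 : Tendsto (fun i => ‖w i - w0‖ * (r * ‖v i‖)) F (nhds 0) := by
      simpa using hw'.mul (hv.norm.const_mul r)
    refine squeeze_zero (fun i => norm_nonneg _) (fun i => ?_) h2
    refine (norm_inner_le_norm _ _).trans (mul_le_mul_of_nonneg_left ?_ (norm_nonneg _))
    exact ((T i).le_opNorm _).trans (mul_le_mul_of_nonneg_right (hr i) (norm_nonneg _))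
  have h3 : Tendsto (fun i => ⟪w0, T i (v i - v0)⟫_ℂ) F (nhds 0) := by
    rw [tendsto_zero_iff_norm_tendsto_zero]
    have h2 : Tendsto (fun i => ‖w0‖ * (r * ‖v i - v0‖)) F (nhds 0) := by
      simpa using (hv'.const_mul r).const_mul ‖w0‖
    refine squeeze_zero (fun i => norm_nonneg _) (fun i => ?_) h2
    refine (norm_inner_le_norm _ _).trans (mul_le_mul_of_nonneg_left ?_ (norm_nonneg _))
    exact ((T i).le_opNorm _).trans (mul_le_mul_of_nonneg_right (hr i) (norm_nonneg _))
  have h4 := (h1.add h3).add (hT v0 w0)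
  rw [zero_add, zero_add] at h4
  refine h4.congr (fun i => ?_)
  rw [map_sub, inner_sub_left, inner_sub_right]
  ring

omit [CompleteSpace H] in
theorem op_ext {S T : H →L[ℂ] H} (h : ∀ ξ η : H, ⟪η, S ξ⟫_ℂ = ⟪η, T ξ⟫_ℂ) : S = T := by
  ext ξ
  exact ext_inner_left ℂ (fun η => h ξ η)

section conv

variable {A : Type} [CStarAlgebra A] {π : A →⋆ₐ[ℂ] (H →L[ℂ] H)}

theorem conv_const (a : A) : Conv π (fun _ : Ix H => a) (π a) := by
  refine ⟨⟨‖a‖, fun _ => le_rfl⟩, fun ζ => tendsto_const_nhds, fun ζ => ?_⟩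
  rw [map_star]
  exact tendsto_const_nhds

theorem conv_add {a b : Ix H → A} {x y : H →L[ℂ] H} (ha : Conv π a x) (hb : Conv π b y) :
    Conv π (fun i => a i + b i) (x + y) := by
  obtain ⟨r, hr⟩ := ha.bdd
  obtain ⟨s, hs⟩ := hb.bdd
  refine ⟨⟨r + s, fun i => (norm_add_le _ _).trans (add_le_add (hr i) (hs i))⟩, fun ζ => ?_,
    fun ζ => ?_⟩
  · have h := (ha.lim ζ).add (hb.lim ζ)
    refine h.congr (fun i => ?_)
    rw [map_add]
    rfl
  · have h := (ha.slim ζ).add (hb.slim ζ)
    rw [star_add]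
    refine h.congr (fun i => ?_)
    rw [star_add, map_add]
    rfl

theorem conv_smul (c : ℂ) {a : Ix H → A} {x : H →L[ℂ] H} (ha : Conv π a x) :
    Conv π (fun i => c • a i) (c • x) := by
  obtain ⟨r, hr⟩ := ha.bdd
  refine ⟨⟨‖c‖ * r, fun i => ?_⟩, fun ζ => ?_, fun ζ => ?_⟩
  · rw [norm_smul]
    exact mul_le_mul_of_nonneg_left (hr i) (norm_nonneg _)
  · have h := (ha.lim ζ).const_smul c
    refine h.congr (fun i => ?_)
    rw [map_smul]
    rfl
  · have h := (ha.slim ζ).const_smul (star c)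
    rw [star_smul]
    refine h.congr (fun i => ?_)
    rw [star_smul, map_smul]
    rfl

theorem conv_mul {a b : Ix H → A} {x y : H →L[ℂ] H} (ha : Conv π a x) (hb : Conv π b y) :
    Conv π (fun i => a i * b i) (x * y) := by
  obtain ⟨r, hr⟩ := ha.bdd
  obtain ⟨s, hs⟩ := hb.bdd
  have hr' : ∀ i, ‖π (a i)‖ ≤ r := fun i => (NonUnitalStarAlgHom.norm_apply_le π (a i)).trans (hr i)
  have hs' : ∀ i, ‖π (star (b i))‖ ≤ s := fun i => by
    refine (NonUnitalStarAlgHom.norm_apply_le π (star (b i))).trans ?_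
    rw [norm_star]
    exact hs i
  refine ⟨⟨r * s, fun i => ?_⟩, fun ζ => ?_, fun ζ => ?_⟩
  · refine (norm_mul_le _ _).trans ?_
    exact mul_le_mul (hr i) (hs i) (norm_nonneg _) ((norm_nonneg _).trans (hr i))
  · have h := tendsto_app hr' ha.lim (hb.lim ζ)
    refine h.congr (fun i => ?_)
    rw [map_mul]
    rfl
  · have h := tendsto_app hs' hb.slim (ha.slim ζ)
    rw [star_mul]
    refine h.congr (fun i => ?_)
    rw [star_mul, map_mul]
    rfl

end conv

end AXEXT

open AXEXT in
theorem prove_xext (h1 : G_net.{0, 0}) (h2 : G_null.{0, 0}) (h3 : G_wlim.{0}) : X_ext2 := by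
  classical
  intro A _ H _ _ _ π D d hd hD
  -- the von Neumann algebra
  have hT : star (Set.centralizer (Set.range π)) = Set.centralizer (Set.range π) := by
    have h4 : ∀ y, y ∈ Set.centralizer (Set.range π) → star y ∈ Set.centralizer (Set.range π) := by
      intro y hy
      rw [Set.mem_centralizer_iff] at hy ⊢
      rintro _ ⟨a, rfl⟩
      have h5 := hy (π (star a)) ⟨star a, rfl⟩
      have h6 := congrArg star h5
      rw [star_mul, star_mul, map_star, star_star] at h6
      exact h6.symm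
    ext y
    rw [Set.mem_star]
    constructor
    · intro hy
      have := h4 _ hy
      rwa [star_star] at this
    · exact h4 y
  obtain ⟨W, hWmem⟩ : ∃ W : VonNeumannAlgebra H, ∀ x : H →L[ℂ] H, x ∈ W.toStarSubalgebra ↔
      ∀ y : H →L[ℂ] H, (∀ a, y * π a = π a * y) → y * x = x * y := by
    refine ⟨{ toStarSubalgebra := StarSubalgebra.centralizer ℂ (Set.centralizer (Set.range π))
              centralizer_centralizer' := by
                change Set.centralizer (Set.centralizer (Set.centralizer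
                  (Set.centralizer (Set.range π) ∪ star (Set.centralizer (Set.range π))))) =
                  Set.centralizer
                    (Set.centralizer (Set.range π) ∪ star (Set.centralizer (Set.range π)))
                exact Set.centralizer_centralizer_centralizer _ }, ?_⟩
    intro x
    change x ∈ Set.centralizer (Set.centralizer (Set.range π) ∪
      star (Set.centralizer (Set.range π))) ↔ _
    rw [hT, Set.union_self, Set.mem_centralizer_iff]
    constructor
    · intro h y hy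
      refine h y ?_
      rw [Set.mem_centralizer_iff]
      rintro _ ⟨a, rfl⟩
      exact (hy a).symm
    · intro h y hy
      refine h y (fun a => ?_)
      rw [Set.mem_centralizer_iff] at hy
      exact (hy (π a) ⟨a, rfl⟩).symm
  -- nets and limits
  have hnet : ∀ x : W.toStarSubalgebra, ∃ a : Ix H → A, Conv π a (x : H →L[ℂ] H) ∧
      ∀ i, ‖a i‖ ≤ 2 * ‖(x : H →L[ℂ] H)‖ := fun x =>
    h1 A H π x ((hWmem x).mp x.2)
  choose net hnet1 hnet2 using hnet
  let U : Ultrafilter (Ix H) := Ultrafilter.of atTop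
  have hU : (U : Filter (Ix H)) ≤ atTop := Ultrafilter.of_le atTop
  have hlim : ∀ x : W.toStarSubalgebra, ∃ E : H →L[ℂ] H, ‖E‖ ≤ 2 * d * ‖(x : H →L[ℂ] H)‖ ∧
      ∀ ξ η : H, Tendsto (fun i => ⟪η, D (net x i) ξ⟫_ℂ) U (nhds ⟪η, E ξ⟫_ℂ) := by
    intro x
    refine h3 H (Ix H) U (fun i => D (net x i)) (2 * d * ‖(x : H →L[ℂ] H)‖) (by positivity) ?_
    intro i
    refine (hD.bound _).trans ?_
    calc d * ‖net x i‖ ≤ d * (2 * ‖(x : H →L[ℂ] H)‖) := mul_le_mul_of_nonneg_left (hnet2 x i) hd
      _ = 2 * d * ‖(x : H →L[ℂ] H)‖ := by ring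
  choose E hE1 hE2 using hlim
  have key : ∀ (x : W.toStarSubalgebra) (b : Ix H → A), Conv π b (x : H →L[ℂ] H) → ∀ ξ η : H,
      Tendsto (fun i => ⟪η, D (b i) ξ⟫_ℂ) U (nhds ⟪η, E x ξ⟫_ℂ) := by
    intro x b hb ξ η
    have hc : Conv π (fun i => b i + (-1 : ℂ) • net x i) 0 := by
      have := conv_add hb (conv_smul (-1) (hnet1 x))
      rwa [neg_one_smul, add_neg_cancel] at this
    have h4 := (h2 A H π D hD.leib d hd hD.bound _ hc ξ η).mono_left hU
    have h5 := h4.add (hE2 x ξ η)
    rw [zero_add] at h5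
    refine h5.congr (fun i => ?_)
    rw [map_add, map_smul, add_apply, smul_apply,
      inner_add_right, inner_smul_right]
    ring
  have uniq : ∀ (x : W.toStarSubalgebra) (F : H →L[ℂ] H) (b : Ix H → A),
      Conv π b (x : H →L[ℂ] H) →
      (∀ ξ η : H, Tendsto (fun i => ⟪η, D (b i) ξ⟫_ℂ) U (nhds ⟪η, F ξ⟫_ℂ)) → E x = F := by
    intro x F b hb hF
    exact op_ext (fun ξ η => tendsto_nhds_unique (key x b hb ξ η) (hF ξ η))
  let E' : W.toStarSubalgebra →ₗ[ℂ] (H →L[ℂ] H) :=
    { toFun := E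
      map_add' := by
        intro x y
        refine uniq (x + y) _ _ (conv_add (hnet1 x) (hnet1 y)) (fun ξ η => ?_)
        have h4 := (hE2 x ξ η).add (hE2 y ξ η)
        rw [add_apply, inner_add_right]
        refine h4.congr (fun i => ?_)
        rw [map_add, add_apply, inner_add_right]
      map_smul' := by
        intro c x
        refine uniq (c • x) _ _ (conv_smul c (hnet1 x)) (fun ξ η => ?_)
        have h4 := (hE2 x ξ η).const_mul c
        rw [RingHom.id_apply, smul_apply, inner_smul_right]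
        refine h4.congr (fun i => ?_)
        rw [map_smul, smul_apply, inner_smul_right] }
  refine ⟨W, E', ⟨?_, ?_⟩, ?_⟩
  · -- Leibniz
    intro x y
    change E (x * y) = (x : H →L[ℂ] H) * E y + E x * (y : H →L[ℂ] H)
    refine uniq (x * y) _ _ (conv_mul (hnet1 x) (hnet1 y)) (fun ξ η => ?_)
    have hbd : ∀ z : W.toStarSubalgebra, ∀ i, ‖D (net z i)‖ ≤ d * (2 * ‖(z : H →L[ℂ] H)‖) :=
      fun z i => (hD.bound _).trans (mul_le_mul_of_nonneg_left (hnet2 z i) hd)
    have h4 := tendsto_inner (hbd y) (hE2 y) (v := fun _ => ξ) tendsto_const_nhds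
      (((hnet1 x).slim η).mono_left hU)
    have h5 := tendsto_inner (hbd x) (hE2 x) (((hnet1 y).lim ξ).mono_left hU) (w := fun _ => η)
      tendsto_const_nhds
    have h6 := h4.add h5
    have h7 : ⟪star (x : H →L[ℂ] H) η, E y ξ⟫_ℂ + ⟪η, E x ((y : H →L[ℂ] H) ξ)⟫_ℂ =
        ⟪η, ((x : H →L[ℂ] H) * E y + E x * (y : H →L[ℂ] H)) ξ⟫_ℂ := by
      rw [add_apply, inner_add_right, mul_apply_eq_comp,
        mul_apply_eq_comp, ContinuousLinearMap.star_eq_adjoint,
        ContinuousLinearMap.adjoint_inner_left]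
    rw [← h7]
    refine h6.congr (fun i => ?_)
    rw [hD.leib, add_apply, inner_add_right, mul_apply_eq_comp,
      mul_apply_eq_comp, map_star, ContinuousLinearMap.star_eq_adjoint,
      ContinuousLinearMap.adjoint_inner_left]
  · intro x
    exact hE1 x
  · intro a
    have ha : π a ∈ W.toStarSubalgebra := by
      rw [hWmem]
      intro y hy
      exact hy a
    refine ⟨⟨π a, ha⟩, rfl, ?_⟩
    exact uniq ⟨π a, ha⟩ (D a) (fun _ => a) (conv_const a) (fun ξ η => tendsto_const_nhds)

end H770R2.Kad
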